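import Mathlib
import Pool.Agent.Q81.PolyRep

/-!
# An infinite order hyperbolicity preserver with infinite dimensional range that is not monotone

The operator is `T = (x - D)(1 - D)e^D`, that is `T[p] = x r - r'` with `r = q - q'` and
`q(x) = p(x + 1)`. Its coefficients are `Q_k = s_k x - s_{k-1}` with `s_k = (1 - k)/k!`, so
`Q_0 = x` and `Q_1 = -1`.
-/

namespace Pool.Agent.Results.MP_6bb0fd_an.NotMonotone

open Polynomial

/-- `T = ∑ Q_k(x) D^k` on `ℝ[x]` (for every polynomial the sum is finite). -/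
def Represents (T : ℝ[X] →ₗ[ℝ] ℝ[X]) (Q : ℕ → ℝ[X]) : Prop :=
  ∀ p : ℝ[X], T p = ∑ k ∈ Finset.range (p.natDegree + 1), Q k * derivative^[k] p

/-- All zeros of `p` are real; the zero polynomial counts as hyperbolic. -/
def Hyperbolic (p : ℝ[X]) : Prop := p = 0 ∨ ∀ z : ℂ, aeval z p = 0 → z.im = 0

/-- `T` maps hyperbolic polynomials to hyperbolic polynomials. -/
def HyperbolicityPreserver (T : ℝ[X] →ₗ[ℝ] ℝ[X]) : Prop :=
  ∀ p : ℝ[X], Hyperbolic p → Hyperbolic (T p)

/-- `deg Q_k ≤ deg Q_{k+1}` whenever `Q_k ≠ 0` (with `deg 0 = ⊥`). -/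
def IsMonotone (Q : ℕ → ℝ[X]) : Prop := ∀ k, Q k ≠ 0 → (Q k).degree ≤ (Q (k + 1)).degree

/-- Translation `p(x) ↦ p(x + 1)`. -/
noncomputable def shift : ℝ[X] →ₗ[ℝ] ℝ[X] := (aeval (X + 1 : ℝ[X])).toLinearMap

/-- The operator `T = (x - D)(1 - D)e^D`. -/
noncomputable def T : ℝ[X] →ₗ[ℝ] ℝ[X] :=
  (LinearMap.mulLeft ℝ X - derivative) ∘ₗ (LinearMap.id - derivative) ∘ₗ shift

/-- The coefficients of `T`. -/
noncomputable def Q (k : ℕ) : ℝ[X] :=
  C ((1 - k) * (k.factorial : ℝ)⁻¹) * X -
    (if k = 0 then 0 else C ((1 - ((k - 1 : ℕ) : ℝ)) * ((k - 1).factorial : ℝ)⁻¹))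

lemma T_apply (p : ℝ[X]) : T p = X * (p.comp (X + 1) - derivative (p.comp (X + 1))) -
    derivative (p.comp (X + 1) - derivative (p.comp (X + 1))) := by
  simp only [T, shift, LinearMap.comp_apply, LinearMap.sub_apply, LinearMap.mulLeft_apply,
    LinearMap.id_apply, AlgHom.toLinearMap_apply]
  rw [show (aeval (X + 1 : ℝ[X])) p = p.comp (X + 1) from rfl]

lemma represents : Represents T Q := by
  intro p
  set N := p.natDegree + 1 with hN
  have hzero : derivative^[N] p = 0 := iterate_derivative_eq_zero (by omega)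
  -- `q = ∑ D^k p / k!`
  have hq : p.comp (X + 1) =
      ∑ k ∈ Finset.range N, C ((k.factorial : ℝ)⁻¹) * derivative^[k] p := by
    rw [← Q81.PolyRep.sum_hasseDeriv_mul_pow p 1 (show p.natDegree < N by omega)]
    refine Finset.sum_congr rfl fun k _ => ?_
    rw [one_pow, mul_one, Q81.PolyRep.hasseDeriv_eq]
  -- `r = ∑ s_k D^k p`
  have hsplit : ∀ f : ℕ → ℝ[X], f N = 0 →
      ∑ k ∈ Finset.range N, f (k + 1) = (∑ k ∈ Finset.range N, f k) - f 0 := by
    intro f hf
    have h1 := Finset.sum_range_succ f N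
    have h2 := Finset.sum_range_succ' f N
    rw [hf, add_zero] at h1
    rw [← h1, h2]; ring
  have hr : p.comp (X + 1) - derivative (p.comp (X + 1)) =
      ∑ k ∈ Finset.range N, C ((1 - k) * (k.factorial : ℝ)⁻¹) * derivative^[k] p := by
    have h1 : derivative (p.comp (X + 1)) = ∑ k ∈ Finset.range N,
        C (((k + 1 : ℕ) : ℝ) * ((k + 1).factorial : ℝ)⁻¹) * derivative^[k + 1] p := by
      rw [hq, derivative_sum]
      refine Finset.sum_congr rfl fun k _ => ?_
      rw [derivative_C_mul, ← Function.iterate_succ_apply' derivative k p]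
      congr 2
      rw [Nat.factorial_succ]
      push_cast
      have : (k.factorial : ℝ) ≠ 0 := by exact_mod_cast k.factorial_ne_zero
      have : (k : ℝ) + 1 ≠ 0 := by positivity
      field_simp
    rw [h1, hsplit (fun k => C (((k : ℕ) : ℝ) * (k.factorial : ℝ)⁻¹) * derivative^[k] p)
      (by rw [hzero, mul_zero]), hq]
    simp only [Nat.cast_zero, zero_mul, C_0, sub_zero]
    rw [← Finset.sum_sub_distrib]
    refine Finset.sum_congr rfl fun k _ => ?_
    rw [← sub_mul, ← C_sub]
    congr 2
    ring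
  rw [T_apply, hr, derivative_sum]
  have h2 : ∑ k ∈ Finset.range N, derivative (C ((1 - (k : ℝ)) * (k.factorial : ℝ)⁻¹) *
      derivative^[k] p) = ∑ k ∈ Finset.range N, (if k = 0 then 0 else
        C ((1 - ((k - 1 : ℕ) : ℝ)) * ((k - 1).factorial : ℝ)⁻¹)) * derivative^[k] p := by
    have h3 := hsplit (fun k => (if k = 0 then 0 else
        C ((1 - ((k - 1 : ℕ) : ℝ)) * ((k - 1).factorial : ℝ)⁻¹)) * derivative^[k] p)
        (by rw [hzero, mul_zero])
    simp only [Nat.add_sub_cancel, Nat.succ_ne_zero, if_false, if_true, zero_mul, sub_zero] at h3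
    rw [← h3]
    refine Finset.sum_congr rfl fun k _ => ?_
    rw [derivative_C_mul, ← Function.iterate_succ_apply' derivative k p]
  rw [h2, Finset.mul_sum, ← Finset.sum_sub_distrib]
  refine Finset.sum_congr rfl fun k _ => ?_
  rw [Q]
  ring

lemma aeval_eq (p : ℝ[X]) (z : ℂ) : aeval z p = (p.map (algebraMap ℝ ℂ)).eval z := by
  rw [eval_map_algebraMap]

/-- `w p - p'` (for `w = 1` or `w = x`) is hyperbolic when `p` is. -/
lemma hyperbolic_sub {p : ℝ[X]} (hp : Hyperbolic p) (w : ℝ[X])
    (hw : ∀ z : ℂ, z.im ≠ 0 → 0 ≤ (aeval z w).im * z.im ∧ aeval z w ≠ 0) :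
    Hyperbolic (w * p - derivative p) := by
  rcases hp with rfl | hp
  · left; simp
  right
  intro z hz
  by_contra him
  have hroot : ∀ z : ℂ, (p.map (algebraMap ℝ ℂ)).IsRoot z → z.im = 0 := by
    intro z hz
    exact hp z (by rw [aeval_eq]; exact hz)
  obtain ⟨h1, h2⟩ := hw z him
  refine Q81.PolyRep.mul_sub_derivative_ne hroot him h1 h2 ?_
  rw [derivative_map, ← aeval_eq, ← aeval_eq, ← map_mul, ← map_sub, hz]

lemma preserver : HyperbolicityPreserver T := by
  intro p hp
  rw [T_apply]
  have hq : Hyperbolic (p.comp (X + 1)) := by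
    rcases hp with rfl | hp
    · left; simp
    right
    intro z hz
    have h1 : aeval (z + 1) p = 0 := by
      rw [← hz, aeval_comp]
      simp
    have := hp _ h1
    simpa using this
  have hr : Hyperbolic (p.comp (X + 1) - derivative (p.comp (X + 1))) := by
    have := hyperbolic_sub hq 1 (fun z _ => by simp)
    simpa using this
  refine hyperbolic_sub hr X fun z hz => ?_
  rw [aeval_X]
  refine ⟨mul_self_nonneg _, fun h => hz (by rw [h]; rfl)⟩

lemma T_ne_zero {p : ℝ[X]} (hp : p ≠ 0) : T p ≠ 0 := by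
  rw [T_apply]
  have hq : p.comp (X + 1) ≠ 0 := by
    intro h
    have h2 : (X + 1 : ℝ[X]) = X + C 1 := by simp
    rw [h2] at h
    have h1 := natDegree_comp (p := p) (q := X + C 1)
    rw [comp_eq_zero_iff] at h
    rcases h with h | ⟨-, h⟩
    · exact hp h
    · have := congrArg natDegree h
      rw [natDegree_X_add_C, natDegree_C] at this
      exact one_ne_zero this
  have haux : ∀ w f : ℝ[X], f ≠ 0 → w ≠ 0 → w * f - derivative f ≠ 0 := by
    intro w f hf hw h
    have h1 : w * f = derivative f := sub_eq_zero.1 h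
    have h2 : (derivative f).degree < f.degree := degree_derivative_lt hf
    have h3 : f.degree ≤ (w * f).degree := by
      rw [mul_comm]
      exact degree_le_mul_left f hw
    rw [h1] at h3
    exact absurd h3 (not_le.2 h2)
  have hr := haux 1 _ hq one_ne_zero
  rw [one_mul] at hr
  exact haux X _ hr X_ne_zero

/-- There is a linear operator `T = ∑ Q_k(x) D^k` on `ℝ[x]` of infinite order which is a
hyperbolicity preserver and whose range is infinite dimensional (in particular of dimension at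
least three), and which is not monotone: `Q_0` has degree one and `Q_1` has degree zero. -/
theorem result : ∃ (T : ℝ[X] →ₗ[ℝ] ℝ[X]) (Q : ℕ → ℝ[X]), Represents T Q ∧
    {k | Q k ≠ 0}.Infinite ∧ HyperbolicityPreserver T ∧
    3 ≤ Module.rank ℝ (LinearMap.range T) ∧ ¬ Module.Finite ℝ (LinearMap.range T) ∧
    ¬ IsMonotone Q ∧ (Q 0).degree = 1 ∧ (Q 1).degree = 0 := by
  have hinj : Function.Injective T := by
    rw [← LinearMap.ker_eq_bot, LinearMap.ker_eq_bot']
    intro p hp
    by_contra h
    exact T_ne_zero h hp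
  have hnf : ¬ Module.Finite ℝ (LinearMap.range T) := by
    intro hf
    have e := LinearEquiv.ofInjective T hinj
    have : Module.Finite ℝ ℝ[X] := Module.Finite.equiv e.symm
    exact Polynomial.not_finite this
  have hQ0 : (Q 0).degree = 1 := by
    have : Q 0 = X := by simp [Q]
    rw [this, degree_X]
  have hQ1 : (Q 1).degree = 0 := by
    have : Q 1 = C (-1) := by simp [Q]
    rw [this, degree_C (by norm_num)]
  refine ⟨T, Q, represents, ?_, preserver, ?_, hnf, ?_, hQ0, hQ1⟩
  · refine Set.infinite_of_not_bddAbove fun ⟨M, hM⟩ => ?_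
    have h1 : Q (M + 2) ≠ 0 := by
      intro h
      have h2 := congrArg (fun f => coeff f 1) h
      simp only [Q, coeff_sub, coeff_C_mul, coeff_X_one, mul_one, coeff_zero] at h2
      rw [if_neg (by omega), coeff_C_of_ne_zero one_ne_zero, sub_zero] at h2
      have h3 : ((M + 2).factorial : ℝ) ≠ 0 := by exact_mod_cast (M + 2).factorial_ne_zero
      rcases mul_eq_zero.1 h2 with h4 | h4
      · push_cast at h4
        have : (0 : ℝ) ≤ M := Nat.cast_nonneg M
        linarith
      · exact h3 (inv_eq_zero.1 h4)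
    have := hM h1
    omega
  · by_contra hlt
    push Not at hlt
    apply hnf
    rw [← Module.rank_lt_aleph0_iff]
    exact hlt.trans (by exact_mod_cast Cardinal.natCast_lt_aleph0 (n := 3))
  · intro h
    have h1 := h 0 (by intro h0; rw [h0, degree_zero] at hQ0; exact absurd hQ0 (by decide))
    rw [hQ0, zero_add, hQ1] at h1
    exact absurd h1 (by decide)

end Pool.Agent.Results.MP_6bb0fd_an.NotMonotone
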